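import Mathlib

/-!
# MP_5b3ffa_mp: the vector representation of `so(n)`, with any multiplicity

`g = so(n)` acts on `ℂ^n ⊗ ℂ^m` (vectors are `n × m` matrices `Ψ`). With `ρ = Ψ Ψ†` the unnormalised
purity is `∑_{i<j} ⟨g_ij⟩² = ‖ρ‖² - ∑ ρ_ij²`. For `M = c O` with `O` complex orthogonal,
`∑ (MρM†)_ij² = |c|⁴ ∑ ρ_ij²`, and `1 = ⟨Ō Ψ, O Ψ⟩ ≤ ‖Ō Ψ‖ ‖O Ψ‖`, which gives
`∑ |c_k|⁴ / p_k ≤ ∑ |c_k|² ‖Ō_k Ψ‖² = 1`. The part `‖ρ‖²` is convex.
-/

set_option autoImplicit false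

namespace Pool.Agent.Results.MP_5b3ffa_mp.OrthogonalVector

open scoped ComplexConjugate BigOperators
open Matrix

variable {n m : ℕ}

/-- The Hermitian generator `g_ij = i (E_ij - E_ji)` of `so(n)`, `i < j`. -/
noncomputable def gen (i j : Fin n) : Matrix (Fin n) (Fin n) ℂ :=
  Complex.I • (Matrix.single i j 1 - Matrix.single j i 1)

/-- The squared norm of the vector `Ψ ∈ ℂ^n ⊗ ℂ^m`, written as an `n × m` matrix. -/
noncomputable def nsq (Ψ : Matrix (Fin n) (Fin m) ℂ) : ℝ := ∑ i, ∑ a, ‖Ψ i a‖ ^ 2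

/-- The expectation value `⟨Ψ| A ⊗ 1 |Ψ⟩ = Tr(Ψ† A Ψ)`. -/
noncomputable def expect (A : Matrix (Fin n) (Fin n) ℂ) (Ψ : Matrix (Fin n) (Fin m) ℂ) : ℝ :=
  (Matrix.trace (Ψᴴ * A * Ψ)).re

/-- The `so(n)`-purity of a unit vector, up to the scale: `∑_{i<j} ⟨Ψ| g_ij ⊗ 1 |Ψ⟩²`. -/
noncomputable def purity (Ψ : Matrix (Fin n) (Fin m) ℂ) : ℝ :=
  ∑ i : Fin n, ∑ j : Fin n, if i < j then expect (gen i j) Ψ ^ 2 else 0

/-! ### Proof -/

/-- the reduced density matrix -/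
noncomputable def rho (Ψ : Matrix (Fin n) (Fin m) ℂ) : Matrix (Fin n) (Fin n) ℂ := Ψ * Ψᴴ

lemma rho_herm (Ψ : Matrix (Fin n) (Fin m) ℂ) (i j : Fin n) : rho Ψ j i = conj (rho Ψ i j) := by
  have h : (rho Ψ)ᴴ = rho Ψ := by
    rw [rho, Matrix.conjTranspose_mul, Matrix.conjTranspose_conjTranspose]
  have := congrFun (congrFun h j) i
  rw [Matrix.conjTranspose_apply] at this
  exact this.symm

lemma expect_gen (Ψ : Matrix (Fin n) (Fin m) ℂ) (i j : Fin n) :
    expect (gen i j) Ψ = 2 * (rho Ψ i j).im := by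
  have h1 : Matrix.trace (Ψᴴ * gen i j * Ψ) = Complex.I * (rho Ψ j i - rho Ψ i j) := by
    rw [Matrix.mul_assoc, Matrix.trace_mul_comm, Matrix.mul_assoc, ← rho, gen, Matrix.smul_mul,
      Matrix.trace_smul, Matrix.sub_mul, Matrix.trace_sub, smul_eq_mul]
    congr 2
    · rw [Matrix.trace_single_mul]; simp
    · rw [Matrix.trace_single_mul]; simp
  rw [expect, h1, rho_herm Ψ i j]
  simp [Complex.mul_re]
  ring

/-- the two quadratic functions of `ρ` -/
noncomputable def fro (A : Matrix (Fin n) (Fin n) ℂ) : ℝ := ∑ i, ∑ j, ‖A i j‖ ^ 2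

noncomputable def sqs (A : Matrix (Fin n) (Fin n) ℂ) : ℂ := ∑ i, ∑ j, A i j ^ 2

lemma im_sq (z : ℂ) : 2 * z.im ^ 2 = ‖z‖ ^ 2 - (z ^ 2).re := by
  rw [← Complex.normSq_eq_norm_sq, Complex.normSq_apply, sq z, Complex.mul_re]
  ring

lemma purity_eq (Ψ : Matrix (Fin n) (Fin m) ℂ) :
    purity Ψ = fro (rho Ψ) - (sqs (rho Ψ)).re := by
  have hsym : ∀ i j, (rho Ψ j i).im = -(rho Ψ i j).im := by
    intro i j; rw [rho_herm Ψ i j]; simp
  have h1 : purity Ψ = ∑ i : Fin n, ∑ j : Fin n, 2 * (rho Ψ i j).im ^ 2 := by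
    have e1 : purity Ψ = ∑ i : Fin n, ∑ j : Fin n, if i < j then 4 * (rho Ψ i j).im ^ 2 else 0 := by
      unfold purity
      refine Finset.sum_congr rfl fun i _ => Finset.sum_congr rfl fun j _ => ?_
      rw [expect_gen]
      split_ifs <;> ring
    have e2 : ∑ i : Fin n, ∑ j : Fin n, (if i < j then 4 * (rho Ψ i j).im ^ 2 else 0) =
        ∑ i : Fin n, ∑ j : Fin n, (if j < i then 4 * (rho Ψ i j).im ^ 2 else 0) := by
      rw [Finset.sum_comm]
      refine Finset.sum_congr rfl fun i _ => Finset.sum_congr rfl fun j _ => ?_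
      rw [hsym i j, neg_sq]
    have e3 : 2 * purity Ψ = 2 * ∑ i : Fin n, ∑ j : Fin n, 2 * (rho Ψ i j).im ^ 2 := by
      calc 2 * purity Ψ = ∑ i : Fin n, ∑ j : Fin n, (if i < j then 4 * (rho Ψ i j).im ^ 2 else 0) +
            ∑ i : Fin n, ∑ j : Fin n, (if j < i then 4 * (rho Ψ i j).im ^ 2 else 0) := by
            rw [← e2, ← e1]; ring
        _ = ∑ i : Fin n, ∑ j : Fin n, 4 * (rho Ψ i j).im ^ 2 := by
            rw [← Finset.sum_add_distrib]
            refine Finset.sum_congr rfl fun i _ => ?_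
            rw [← Finset.sum_add_distrib]
            refine Finset.sum_congr rfl fun j _ => ?_
            rcases lt_trichotomy i j with h | h | h
            · rw [if_pos h, if_neg (not_lt.2 h.le), add_zero]
            · subst h
              have : (rho Ψ i i).im = 0 := by have := hsym i i; linarith
              simp [this]
            · rw [if_neg (not_lt.2 h.le), if_pos h, zero_add]
        _ = _ := by
            rw [Finset.mul_sum]
            refine Finset.sum_congr rfl fun i _ => ?_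
            rw [Finset.mul_sum]
            refine Finset.sum_congr rfl fun j _ => ?_
            ring
    linarith
  rw [h1, fro, sqs, Complex.re_sum, ← Finset.sum_sub_distrib]
  refine Finset.sum_congr rfl fun i _ => ?_
  rw [Complex.re_sum, ← Finset.sum_sub_distrib]
  exact Finset.sum_congr rfl fun j _ => im_sq _

lemma sqs_eq_trace (A : Matrix (Fin n) (Fin n) ℂ) : sqs A = Matrix.trace (A * Aᵀ) := by
  rw [sqs, Matrix.trace]
  refine Finset.sum_congr rfl fun i _ => ?_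
  rw [Matrix.diag_apply, Matrix.mul_apply]
  exact Finset.sum_congr rfl fun j _ => by rw [Matrix.transpose_apply, sq]

lemma fro_eq_trace (A : Matrix (Fin n) (Fin n) ℂ) : ((fro A : ℝ) : ℂ) = Matrix.trace (Aᴴ * A) := by
  rw [fro, Matrix.trace]
  push_cast
  rw [Finset.sum_comm]
  refine Finset.sum_congr rfl fun i _ => ?_
  rw [Matrix.diag_apply, Matrix.mul_apply]
  refine Finset.sum_congr rfl fun j _ => ?_
  rw [Matrix.conjTranspose_apply, RCLike.star_def, mul_comm, Complex.mul_conj,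
    Complex.normSq_eq_norm_sq]
  push_cast; ring

lemma nsq_eq_trace (Ψ : Matrix (Fin n) (Fin m) ℂ) : ((nsq Ψ : ℝ) : ℂ) = Matrix.trace (Ψᴴ * Ψ) := by
  rw [nsq, Matrix.trace]
  push_cast
  rw [Finset.sum_comm]
  refine Finset.sum_congr rfl fun i _ => ?_
  rw [Matrix.diag_apply, Matrix.mul_apply]
  refine Finset.sum_congr rfl fun j _ => ?_
  rw [Matrix.conjTranspose_apply, RCLike.star_def, mul_comm, Complex.mul_conj,
    Complex.normSq_eq_norm_sq]
  push_cast; ring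

lemma nsq_nonneg (Ψ : Matrix (Fin n) (Fin m) ℂ) : 0 ≤ nsq Ψ :=
  Finset.sum_nonneg fun i _ => Finset.sum_nonneg fun a _ => by positivity

lemma fro_nonneg (A : Matrix (Fin n) (Fin n) ℂ) : 0 ≤ fro A :=
  Finset.sum_nonneg fun i _ => Finset.sum_nonneg fun a _ => by positivity

/-- Cauchy-Schwarz -/
lemma cs (A B : Matrix (Fin n) (Fin m) ℂ) :
    ‖Matrix.trace (Aᴴ * B)‖ ^ 2 ≤ nsq A * nsq B := by
  have e : Matrix.trace (Aᴴ * B) = ∑ x : Fin n × Fin m, conj (A x.1 x.2) * B x.1 x.2 := by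
    rw [Matrix.trace, Fintype.sum_prod_type_right]
    refine Finset.sum_congr rfl fun i _ => ?_
    rw [Matrix.diag_apply, Matrix.mul_apply]
    exact Finset.sum_congr rfl fun j _ => by rw [Matrix.conjTranspose_apply, RCLike.star_def]
  have eA : nsq A = ∑ x : Fin n × Fin m, ‖A x.1 x.2‖ ^ 2 := by rw [nsq, Fintype.sum_prod_type]
  have eB : nsq B = ∑ x : Fin n × Fin m, ‖B x.1 x.2‖ ^ 2 := by rw [nsq, Fintype.sum_prod_type]
  rw [e, eA, eB]
  have h1 : ‖∑ x : Fin n × Fin m, conj (A x.1 x.2) * B x.1 x.2‖ ≤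
      ∑ x : Fin n × Fin m, ‖A x.1 x.2‖ * ‖B x.1 x.2‖ := by
    refine (norm_sum_le _ _).trans (le_of_eq ?_)
    exact Finset.sum_congr rfl fun x _ => by rw [norm_mul, RCLike.norm_conj]
  refine (pow_le_pow_left₀ (norm_nonneg _) h1 2).trans ?_
  exact Finset.sum_mul_sq_le_sq_mul_sq _ _ _

/-- For `g = so(n)` acting on `ℂ^n ⊗ ℂ^m`, every finite family `M_k = c_k O_k` with `c_k ≠ 0`, `O_k`
complex orthogonal and `∑ M_k† M_k = 1`, and every unit vector `Ψ`: the average purity of the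
post-measurement states `M_k Ψ / √p_k`, `p_k = ‖M_k Ψ‖²`, is at least the purity of `Ψ`. -/
theorem result {K : Type} [Fintype K] (c : K → ℂ) (O : K → Matrix (Fin n) (Fin n) ℂ)
    (hc : ∀ k, c k ≠ 0) (hO : ∀ k, (O k)ᵀ * O k = 1)
    (hM : ∑ k, (c k • O k)ᴴ * (c k • O k) = 1) (Ψ : Matrix (Fin n) (Fin m) ℂ) (hΨ : nsq Ψ = 1) :
    purity Ψ ≤ ∑ k, nsq ((c k • O k) * Ψ) *
      purity (((1 / Real.sqrt (nsq ((c k • O k) * Ψ)) : ℝ) : ℂ) • ((c k • O k) * Ψ)) := by
  set M : K → Matrix (Fin n) (Fin n) ℂ := fun k => c k • O k with hMd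
  set p : K → ℝ := fun k => nsq (M k * Ψ) with hp
  -- Cauchy-Schwarz
  set Ob : K → Matrix (Fin n) (Fin n) ℂ := fun k => (O k).map conj with hOb
  have hObT : ∀ k, (Ob k)ᴴ = (O k)ᵀ := by
    intro k; ext i j; simp [hOb]
  have hnsmul : ∀ (x : ℂ) (Φ : Matrix (Fin n) (Fin m) ℂ), nsq (x • Φ) = ‖x‖ ^ 2 * nsq Φ := by
    intro x Φ
    rw [nsq, nsq, Finset.mul_sum]
    refine Finset.sum_congr rfl fun i _ => ?_
    rw [Finset.mul_sum]
    refine Finset.sum_congr rfl fun a _ => ?_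
    rw [Matrix.smul_apply, smul_eq_mul, norm_mul, mul_pow]
  have hcs : ∀ k, 1 ≤ nsq (Ob k * Ψ) * nsq (O k * Ψ) := by
    intro k
    have h1 := cs (Ob k * Ψ) (O k * Ψ)
    rw [Matrix.conjTranspose_mul, hObT, Matrix.mul_assoc, ← Matrix.mul_assoc (O k)ᵀ, hO,
      Matrix.one_mul, ← nsq_eq_trace, hΨ] at h1
    simpa using h1
  have hOpos : ∀ k, 0 < nsq (O k * Ψ) := by
    intro k
    by_contra h
    have h0 : nsq (O k * Ψ) = 0 := le_antisymm (not_lt.1 h) (nsq_nonneg _)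
    have := hcs k
    rw [h0, mul_zero] at this
    linarith
  have hpk : ∀ k, p k = ‖c k‖ ^ 2 * nsq (O k * Ψ) := by
    intro k
    simp only [hp, hMd]
    rw [Matrix.smul_mul, hnsmul]
  have hcpos : ∀ k, 0 < ‖c k‖ ^ 2 := fun k => by
    have := norm_pos_iff.2 (hc k)
    positivity
  have hppos : ∀ k, 0 < p k := fun k => by rw [hpk]; exact mul_pos (hcpos k) (hOpos k)
  -- `∑ |c_k|² ‖Ō_k Ψ‖² = 1`
  have hsum1 : ∑ k, ‖c k‖ ^ 2 * nsq (Ob k * Ψ) = 1 := by
    have h1 : ∀ k, ((‖c k‖ ^ 2 * nsq (Ob k * Ψ) : ℝ) : ℂ) =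
        Matrix.trace (Ψᴴ * ((M k)ᴴ * M k).map conj * Ψ) := by
      intro k
      have e1 : ((M k)ᴴ * M k).map conj = (((‖c k‖ ^ 2 : ℝ)) : ℂ) • ((Ob k)ᴴ * Ob k) := by
        simp only [hMd, hOb]
        ext i j
        simp only [Matrix.map_apply, Matrix.mul_apply, Matrix.conjTranspose_apply,
          Matrix.smul_apply, smul_eq_mul, map_sum, map_mul, RCLike.star_def, Complex.conj_conj,
          Finset.mul_sum]
        refine Finset.sum_congr rfl fun l _ => ?_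
        have : c k * conj (c k) = ((‖c k‖ ^ 2 : ℝ) : ℂ) := by
          rw [Complex.mul_conj, Complex.normSq_eq_norm_sq]
        rw [← this]; ring
      rw [e1, Matrix.mul_smul, Matrix.smul_mul, Matrix.trace_smul, smul_eq_mul,
        Complex.ofReal_mul, nsq_eq_trace, Matrix.conjTranspose_mul]
      simp only [Matrix.mul_assoc]
    have h2 : ((∑ k, ‖c k‖ ^ 2 * nsq (Ob k * Ψ) : ℝ) : ℂ) = ((1 : ℝ) : ℂ) := by
      rw [Complex.ofReal_sum, Finset.sum_congr rfl fun k _ => h1 k, ← Matrix.trace_sum,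
        ← Matrix.sum_mul, ← Matrix.mul_sum]
      have e2 : ∑ k, ((M k)ᴴ * M k).map conj = 1 := by
        have h3 : (∑ k, (c k • O k)ᴴ * (c k • O k)).map conj =
            (1 : Matrix (Fin n) (Fin n) ℂ).map conj := by rw [hM]
        rw [show (1 : Matrix (Fin n) (Fin n) ℂ).map conj = 1 from
          Matrix.map_one _ (map_zero _) (map_one _)] at h3
        rw [← h3]
        ext i j
        simp only [Matrix.sum_apply, Matrix.map_apply, map_sum, hMd]
      rw [e2, Matrix.mul_one, ← nsq_eq_trace, hΨ]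
    exact_mod_cast h2
  have hsum2 : ∑ k, ‖c k‖ ^ 4 / p k ≤ 1 := by
    rw [← hsum1]
    refine Finset.sum_le_sum fun k _ => ?_
    have h1 := hcs k
    have h2 := hOpos k
    have h3 := hcpos k
    rw [hpk, div_le_iff₀ (mul_pos h3 h2)]
    nlinarith [mul_pos h3 h3]
  -- the matrices `N_k`
  set N : K → Matrix (Fin m) (Fin m) ℂ := fun k => (M k * Ψ)ᴴ * (M k * Ψ) with hN
  set N0 : Matrix (Fin m) (Fin m) ℂ := Ψᴴ * Ψ with hN0
  have hNsum : ∑ k, N k = N0 := by
    have : ∀ k, N k = Ψᴴ * ((M k)ᴴ * M k) * Ψ := by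
      intro k
      simp only [hN, Matrix.conjTranspose_mul, Matrix.mul_assoc]
    rw [Finset.sum_congr rfl fun k _ => this k, ← Matrix.sum_mul, ← Matrix.mul_sum]
    have h3 : ∑ k, (M k)ᴴ * M k = 1 := hM
    rw [h3, Matrix.mul_one]
  have hfr : ∀ Φ : Matrix (Fin n) (Fin m) ℂ, fro (rho Φ) = ∑ a, ∑ b, ‖(Φᴴ * Φ) a b‖ ^ 2 := by
    intro Φ
    have h1 : ((fro (rho Φ) : ℝ) : ℂ) = ((fro (Φᴴ * Φ) : ℝ) : ℂ) := by
      rw [fro_eq_trace, fro_eq_trace, rho, Matrix.conjTranspose_mul,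
        Matrix.conjTranspose_conjTranspose, Matrix.conjTranspose_mul,
        Matrix.conjTranspose_conjTranspose, Matrix.mul_assoc, Matrix.trace_mul_comm]
      simp only [Matrix.mul_assoc]
    have h2 : fro (rho Φ) = fro (Φᴴ * Φ) := by exact_mod_cast h1
    rw [h2, fro]
  have hptr : ∀ k, ((p k : ℝ) : ℂ) = Matrix.trace (N k) := fun k => nsq_eq_trace _
  have hpsum : ∑ k, p k = 1 := by
    have : ((∑ k, p k : ℝ) : ℂ) = ((1 : ℝ) : ℂ) := by
      rw [Complex.ofReal_sum, Finset.sum_congr rfl fun k _ => hptr k, ← Matrix.trace_sum, hNsum,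
        hN0, ← nsq_eq_trace, hΨ]
    exact_mod_cast this
  -- convexity of `‖·‖²`
  have hconv : fro (rho Ψ) ≤ ∑ k, (1 / p k) * fro (rho (M k * Ψ)) := by
    have hent : ∀ a b, ‖N0 a b‖ ^ 2 ≤ ∑ k, (1 / p k) * ‖N k a b‖ ^ 2 := by
      intro a b
      have h0 : N0 a b = ∑ k, N k a b := by rw [← hNsum, Matrix.sum_apply]
      have h1 : ‖N0 a b‖ ≤ ∑ k, Real.sqrt (p k) * (‖N k a b‖ / Real.sqrt (p k)) := by
        rw [h0]
        refine (norm_sum_le _ _).trans (le_of_eq (Finset.sum_congr rfl fun k _ => ?_))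
        have := Real.sqrt_pos.2 (hppos k)
        field_simp
      refine (pow_le_pow_left₀ (norm_nonneg _) h1 2).trans
        ((Finset.sum_mul_sq_le_sq_mul_sq _ _ _).trans (le_of_eq ?_))
      rw [Finset.sum_congr rfl fun k _ => Real.sq_sqrt (hppos k).le, hpsum, one_mul]
      refine Finset.sum_congr rfl fun k _ => ?_
      rw [div_pow, Real.sq_sqrt (hppos k).le]
      ring
    rw [hfr Ψ]
    calc ∑ a, ∑ b, ‖N0 a b‖ ^ 2 ≤ ∑ a, ∑ b, ∑ k, (1 / p k) * ‖N k a b‖ ^ 2 :=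
          Finset.sum_le_sum fun a _ => Finset.sum_le_sum fun b _ => hent a b
      _ = ∑ k, (1 / p k) * fro (rho (M k * Ψ)) := by
          rw [Finset.sum_congr rfl fun a _ => Finset.sum_comm, Finset.sum_comm]
          refine Finset.sum_congr rfl fun k _ => ?_
          rw [hfr, Finset.mul_sum]
          exact Finset.sum_congr rfl fun a _ => by rw [Finset.mul_sum]
  -- the second part
  have hsqs : ∀ k, sqs (rho (M k * Ψ)) = ((‖c k‖ ^ 4 : ℝ) : ℂ) * sqs (rho Ψ) := by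
    intro k
    have hT : (M k)ᵀ * M k = (c k ^ 2) • (1 : Matrix (Fin n) (Fin n) ℂ) := by
      simp only [hMd]
      rw [Matrix.transpose_smul, Matrix.smul_mul, Matrix.mul_smul, hO, smul_smul, sq]
    have hTc : (M k)ᴴ * (M k).map conj = (conj (c k) ^ 2) • (1 : Matrix (Fin n) (Fin n) ℂ) := by
      have h1 : ((M k)ᵀ * M k).map conj =
          ((c k ^ 2) • (1 : Matrix (Fin n) (Fin n) ℂ)).map conj := by rw [hT]
      rw [Matrix.map_mul] at h1
      have e1 : ((M k)ᵀ).map conj = (M k)ᴴ := by ext i j; simp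
      rw [e1] at h1
      rw [h1]
      ext i j
      by_cases hij : i = j
      · subst hij; simp
      · simp [Matrix.one_apply_ne hij]
    have hrhoM : rho (M k * Ψ) = M k * rho Ψ * (M k)ᴴ := by
      rw [rho, rho, Matrix.conjTranspose_mul]; simp only [Matrix.mul_assoc]
    have e2 : ((M k)ᴴ)ᵀ = (M k).map conj := by ext i j; simp
    rw [sqs_eq_trace, sqs_eq_trace, hrhoM, Matrix.transpose_mul, Matrix.transpose_mul, e2]
    have e3 : M k * rho Ψ * (M k)ᴴ * ((M k).map conj * ((rho Ψ)ᵀ * (M k)ᵀ)) =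
        M k * (rho Ψ * ((M k)ᴴ * (M k).map conj) * (rho Ψ)ᵀ * (M k)ᵀ) := by
      simp only [Matrix.mul_assoc]
    rw [e3, hTc, Matrix.trace_mul_comm (M k) _, Matrix.mul_assoc _ (M k)ᵀ (M k), hT]
    simp only [Matrix.mul_smul, Matrix.smul_mul, Matrix.mul_one, Matrix.trace_smul, smul_eq_mul]
    rw [← mul_assoc, mul_comm (c k ^ 2)]
    have e4 : conj (c k) ^ 2 * c k ^ 2 = ((‖c k‖ ^ 4 : ℝ) : ℂ) := by
      rw [← mul_pow, mul_comm, Complex.mul_conj, Complex.normSq_eq_norm_sq]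
      push_cast; ring
    rw [e4]
  have hsqs0 : 0 ≤ (sqs (rho Ψ)).re := by
    have h1 := cs (rho Ψ) (rho Ψ)
    -- `∑ ρ_ij² = tr (ρ ρ̄)`, a trace of a product of positive matrices
    have e1 : sqs (rho Ψ) = ((nsq (Ψᵀ * Ψ) : ℝ) : ℂ) := by
      rw [sqs_eq_trace, nsq_eq_trace, rho, Matrix.transpose_mul, Matrix.conjTranspose_mul]
      have e5 : (Ψᴴ)ᵀ = (Ψᵀ)ᴴ := by ext i j; simp
      rw [e5, Matrix.mul_assoc, Matrix.trace_mul_comm]
      simp only [Matrix.mul_assoc]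
    rw [e1, Complex.ofReal_re]
    exact nsq_nonneg _
  -- conclusion
  have hpur : ∀ k, p k * purity (((1 / Real.sqrt (p k) : ℝ) : ℂ) • (M k * Ψ)) =
      (1 / p k) * (fro (rho (M k * Ψ)) - ‖c k‖ ^ 4 * (sqs (rho Ψ)).re) := by
    intro k
    have hp1 := hppos k
    have hs : Real.sqrt (p k) * Real.sqrt (p k) = p k := Real.mul_self_sqrt hp1.le
    have hs0 := Real.sqrt_pos.2 hp1
    have e1 : rho (((1 / Real.sqrt (p k) : ℝ) : ℂ) • (M k * Ψ)) =
        ((1 / p k : ℝ) : ℂ) • rho (M k * Ψ) := by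
      rw [rho, rho, Matrix.conjTranspose_smul, Matrix.smul_mul, Matrix.mul_smul, smul_smul]
      congr 1
      rw [RCLike.star_def, Complex.conj_ofReal, ← Complex.ofReal_mul]
      congr 1
      rw [div_mul_div_comm, hs, one_mul]
    have e2 : ∀ (x : ℝ) (A : Matrix (Fin n) (Fin n) ℂ), fro ((x : ℂ) • A) = x ^ 2 * fro A := by
      intro x A
      rw [fro, fro, Finset.mul_sum]
      refine Finset.sum_congr rfl fun i _ => ?_
      rw [Finset.mul_sum]
      refine Finset.sum_congr rfl fun j _ => ?_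
      rw [Matrix.smul_apply, smul_eq_mul, norm_mul, mul_pow, Complex.norm_real, Real.norm_eq_abs,
        sq_abs]
    have e3 : ∀ (x : ℝ) (A : Matrix (Fin n) (Fin n) ℂ), sqs ((x : ℂ) • A) =
        ((x ^ 2 : ℝ) : ℂ) * sqs A := by
      intro x A
      rw [sqs, sqs, Finset.mul_sum]
      refine Finset.sum_congr rfl fun i _ => ?_
      rw [Finset.mul_sum]
      refine Finset.sum_congr rfl fun j _ => ?_
      rw [Matrix.smul_apply, smul_eq_mul, mul_pow]
      push_cast; ring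
    rw [purity_eq, e1, e2, e3, hsqs, Complex.re_ofReal_mul, Complex.re_ofReal_mul]
    field_simp
  change purity Ψ ≤ ∑ k, p k * purity (((1 / Real.sqrt (p k) : ℝ) : ℂ) • (M k * Ψ))
  rw [Finset.sum_congr rfl fun k _ => hpur k, purity_eq]
  have hfin : ∑ k, (1 / p k) * (fro (rho (M k * Ψ)) - ‖c k‖ ^ 4 * (sqs (rho Ψ)).re) =
      ∑ k, (1 / p k) * fro (rho (M k * Ψ)) - (∑ k, ‖c k‖ ^ 4 / p k) * (sqs (rho Ψ)).re := by
    rw [Finset.sum_mul, ← Finset.sum_sub_distrib]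
    refine Finset.sum_congr rfl fun k _ => ?_
    ring
  rw [hfin]
  nlinarith

end Pool.Agent.Results.MP_5b3ffa_mp.OrthogonalVector
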